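import Pool.Agent.Lib.MP_7eeb8f_lc.Final
import Pool.Agent.Lib.MP_7eeb8f_lc.Sanity

/-!
Affirmative answer to Q1: up to logarithmic precision the set of complexity profiles of all
`(k + 1)`-tuples with first component `x` depends only on the complexity of `x`.

Idea of the proof.  Replace `x` and `x'` by shortest programs, so that both are incompressible
strings of the same length `m`.  For the tuple `z = (x, y)` consider the enumerable family of all
tuples `w` whose subtuples are at most as complex as those of `z`, thinned out so that all fibres
over subtuples are as small as the profile of `z` predicts (this keeps `z`).  The family has about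
`2 ^ C(z)` members, so the set of the first components with about the average number of extensions
is an enumerable subset of the strings of length `m` with density at least `1 / poly`.  Its
enumeration matches every string `x'` of length `m` with a member `x''` of this set at information
distance `O(log)`, and the most complex extension of `x''` in the family has the profile of `z`.
-/

set_option autoImplicit false

namespace Pool.Agent.Results.MP_7eeb8f_lc.ProfileDependsOnComplexity

open Pool.Agent.Lib.MP_7eeb8f_lc

/-- For every optimal decompressor `U`, every computable encoding `e` of tuples of strings and every
`k` there is a constant `c` such that for all strings `x, x'` of the same complexity and all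
`y 0, …, y (k - 1)` there are `y' 0, …, y' (k - 1)` for which the profiles of `(x, y)` and
`(x', y')` differ in every coordinate by at most `c * log (2 + N)`, where `N` is the total length
of `x`, `x'` and `y`. -/
theorem result (U : List Bool →. List Bool) (hU : IsOptimal U)
    (e : List (List Bool) → List Bool) (he : IsTupleEncoding e) (k : ℕ) :
    ∃ c : ℝ, ∀ x x' : List Bool, kolmogorov U x = kolmogorov U x' →
      ∀ y : Fin k → List Bool, ∃ y' : Fin k → List Bool,
        ∀ S : Finset (Fin (k + 1)), S.Nonempty →
          |(profile U e (Fin.cons x y : Fin (k + 1) → List Bool) S : ℝ) -
            profile U e (Fin.cons x' y' : Fin (k + 1) → List Bool) S| ≤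
            c * Real.log (2 + (x.length + x'.length + ∑ i, (y i).length : ℕ)) := by
  obtain ⟨c, hc⟩ := main_real hU he k
  refine ⟨c, fun x x' hx y => ?_⟩
  obtain ⟨y', hy'⟩ := hc x x' hx y
  exact ⟨y', fun S _ => hy' S⟩

end Pool.Agent.Results.MP_7eeb8f_lc.ProfileDependsOnComplexity
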